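import Mathlib
import Pool.Agent.R569.SOL.Code

set_option autoImplicit false

/-!
MP_5c31ca, Q1: there is an algorithm that decides whether a given one-dimensional abelian
cellular automaton has a soliton.
-/

namespace Pool.Agent.Results.MP_5c31ca_lc.AbelianDecidable

/-- The abelian cellular automaton of radius `r` on `A ^ ℤ` with the local homomorphisms
`h 0, …, h (2 r)`, where `h j` is applied to the cell `i + j - r`. -/
def ca {A : Type} [AddCommGroup A] (r : ℕ) (h : Fin (2 * r + 1) → (A →+ A)) :
    (ℤ → A) → (ℤ → A) :=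
  fun x i => ∑ j : Fin (2 * r + 1), h j (x (i + ((j : ℕ) : ℤ) - r))

/-- `F` has a soliton: there are distinct configurations `x`, `y` that differ in finitely many
cells and a `D` such that, for every `t ≥ 0`, the set of cells where `F^t(x)` and `F^t(y)` differ
has diameter at most `D`. -/
def HasSoliton {A : Type} (F : (ℤ → A) → (ℤ → A)) : Prop :=
  ∃ x y : ℤ → A, x ≠ y ∧ {i | x i ≠ y i}.Finite ∧ ∃ D : ℕ, ∀ t : ℕ, ∀ i j : ℤ,
    F^[t] x i ≠ F^[t] y i → F^[t] x j ≠ F^[t] y j → |i - j| ≤ D

/-- The finite description of an abelian cellular automaton: the number `N` of elements of the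
group (numbered by `e`), the table of the addition, the radius, and the tables of the
`2 r + 1` homomorphisms. -/
def code {A : Type} [AddCommGroup A] {N : ℕ} (e : A ≃ Fin N) (r : ℕ)
    (h : Fin (2 * r + 1) → (A →+ A)) : ℕ × List (List ℕ) × ℕ × List (List ℕ) :=
  (N, List.ofFn (fun a : Fin N => List.ofFn (fun b : Fin N => (e (e.symm a + e.symm b) : ℕ))), r,
    List.ofFn (fun j => List.ofFn (fun a : Fin N => (e (h j (e.symm a)) : ℕ))))

/-- The existence of a soliton is decidable for abelian cellular automata. -/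
theorem result : ∃ f : ℕ × List (List ℕ) × ℕ × List (List ℕ) → Bool, Computable f ∧
    ∀ (A : Type) [AddCommGroup A] (N : ℕ) (e : A ≃ Fin N) (r : ℕ)
      (h : Fin (2 * r + 1) → (A →+ A)), f (code e r h) = true ↔ HasSoliton (ca r h) := by
  classical
  obtain ⟨hd, hp⟩ := Pool.Agent.R569.SOL.prim_good
  refine ⟨_, hp.to_comp, fun A _ N e r h => ?_⟩
  rw [decide_eq_true_iff]
  exact Pool.Agent.R569.SOL.correct e r h

end Pool.Agent.Results.MP_5c31ca_lc.AbelianDecidable
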